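import Mathlib

namespace Pool.Agent.H.MP_61d686_an

open Set Filter Topology MeasureTheory

set_option maxHeartbeats 400000

noncomputable def x (n : ℕ) : ℝ := (if n % 3 = 0 then 3 else 2) / 6 ^ (n / 3)

def D : Finset ℕ := {0, 2, 3, 4, 5, 7}

def G (Z : Set ℕ) (k : ℕ) : Set ℝ :=
  {s | ∃ d : ℕ → ℕ, (∀ j, d j ∈ D) ∧ (∀ j ∈ Z, d j ≠ 7) ∧
    HasSum (fun j => (d (j + k) : ℝ) / 6 ^ (j + k)) s}

theorem x_pos (n : ℕ) : 0 < x n := by unfold x; split_ifs <;> positivity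

theorem x0 (k : ℕ) : x (3 * k) = 3 / 6 ^ k := by simp [x]
theorem x1 (k : ℕ) : x (3 * k + 1) = 2 / 6 ^ k := by
  unfold x; rw [if_neg (by omega), show (3 * k + 1) / 3 = k by omega]
theorem x2 (k : ℕ) : x (3 * k + 2) = 2 / 6 ^ k := by
  unfold x; rw [if_neg (by omega), show (3 * k + 2) / 3 = k by omega]

theorem hs_congr {f g : ℕ → ℝ} {s : ℝ} (h : HasSum f s) (e : ∀ j, f j = g j) : HasSum g s :=
  (funext e : f = g) ▸ h

theorem dv (a : ℝ) (k : ℕ) : a / 6 ^ k = a * (6 ^ k)⁻¹ := div_eq_mul_inv _ _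

theorem geo (k : ℕ) : HasSum (fun j => (7:ℝ) / 6 ^ (j + k)) (42 / 5 / 6 ^ k) := by
  have h := (hasSum_geometric_of_lt_one (r := 1 / 6) (by norm_num) (by norm_num)).mul_left
    ((7:ℝ) / 6 ^ k)
  have e1 : (fun j => (7:ℝ) / 6 ^ (j + k)) = fun j => (7:ℝ) / 6 ^ k * (1 / 6) ^ j := by
    funext j; rw [pow_add, one_div_pow]; field_simp
  have e2 : (42 / 5 / 6 ^ k : ℝ) = 7 / 6 ^ k * (1 - 1 / 6)⁻¹ := by field_simp; norm_num
  rw [e1, e2]; exact h

theorem blk (f : ℕ → ℝ) (k : ℕ) : ∑ i ∈ Finset.range (3 * k), f i =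
    ∑ j ∈ Finset.range k, (f (3 * j) + f (3 * j + 1) + f (3 * j + 2)) := by
  induction k with
  | zero => simp
  | succ k ih =>
    rw [show 3 * (k + 1) = 3 * k + 1 + 1 + 1 by ring, Finset.sum_range_succ, Finset.sum_range_succ,
      Finset.sum_range_succ, ih, Finset.sum_range_succ]; ring

theorem blkSum {f : ℕ → ℝ} (hf : ∀ i, 0 ≤ f i) {s : ℝ} (h : HasSum f s) :
    HasSum (fun j => f (3 * j) + f (3 * j + 1) + f (3 * j + 2)) s := by
  rw [hasSum_iff_tendsto_nat_of_nonneg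
    (fun j => add_nonneg (add_nonneg (hf _) (hf _)) (hf _))]
  exact (h.tendsto_sum_nat.comp (tendsto_id.const_mul_atTop' (by norm_num : 0 < 3))).congr
    fun k => blk f k

theorem summ : Summable x := by
  refine summable_of_sum_range_le (c := 42 / 5 / 6 ^ 0) (fun n => (x_pos n).le) fun n => ?_
  refine (Finset.sum_le_sum_of_subset_of_nonneg (Finset.range_mono (by omega : n ≤ 3 * n))
    fun i _ _ => (x_pos i).le).trans ?_
  rw [blk]
  refine le_trans (le_of_eq ?_) (sum_le_hasSum (Finset.range n) (fun _ _ => by positivity) (geo 0))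
  exact Finset.sum_congr rfl fun j _ => by rw [x0, x1, x2, add_zero]; ring

theorem ind_nonneg (B : Set ℕ) (i : ℕ) : 0 ≤ B.indicator x i :=
  indicator_nonneg (fun a _ => (x_pos a).le) i

theorem toG {B : Set ℕ} {s : ℝ} (h : HasSum (B.indicator x) s) :
    s ∈ G {j | ¬ (3 * j ∈ B ∧ 3 * j + 1 ∈ B ∧ 3 * j + 2 ∈ B)} 0 := by
  classical
  refine ⟨fun j => (if 3 * j ∈ B then 3 else 0) + (if 3 * j + 1 ∈ B then 2 else 0) +
    (if 3 * j + 2 ∈ B then 2 else 0), fun j => ?_, fun j hj => ?_, ?_⟩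
  · dsimp only; split_ifs <;> decide
  · dsimp only; split_ifs <;> simp_all
  · have := blkSum (ind_nonneg B) h
    refine hs_congr this fun j => ?_
    simp only [indicator, x0, x1, x2, add_zero]
    split_ifs <;> push_cast <;> ring

theorem G_mono {Z Z' : Set ℕ} (h : Z ⊆ Z') (k : ℕ) : G Z' k ⊆ G Z k :=
  fun _ ⟨d, h1, h2, h3⟩ => ⟨d, h1, fun j hj => h2 j (h hj), h3⟩

theorem ofG {s : ℝ} (h : s ∈ G ∅ 0) : ∃ B : Set ℕ, HasSum (B.indicator x) s := by
  classical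
  obtain ⟨d, h1, -, h3⟩ := h
  let B : Set ℕ := {i | (i % 3 = 0 ∧ d (i / 3) % 2 = 1) ∨
    (i % 3 = 1 ∧ d (i / 3) ≠ 0 ∧ d (i / 3) ≠ 3) ∨ (i % 3 = 2 ∧ d (i / 3) % 3 = 1)}
  refine ⟨B, ?_⟩
  have h4 := (summ.indicator B).hasSum
  have h5 := blkSum (ind_nonneg B) h4
  have e : (fun j => B.indicator x (3 * j) + B.indicator x (3 * j + 1) +
      B.indicator x (3 * j + 2)) = fun j => (d (j + 0) : ℝ) / 6 ^ (j + 0) := by
    funext j
    have a0 : 3 * j ∈ B ↔ d j % 2 = 1 := by simp [B]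
    have a1 : 3 * j + 1 ∈ B ↔ d j ≠ 0 ∧ d j ≠ 3 := by
      simp [B, show (3 * j + 1) / 3 = j by omega]
    have a2 : 3 * j + 2 ∈ B ↔ d j % 3 = 1 := by
      simp [B, show (3 * j + 2) / 3 = j by omega]
    have := h1 j
    simp only [D, Finset.mem_insert, Finset.mem_singleton] at this
    simp only [indicator, a0, a1, a2, x0, x1, x2, add_zero]
    rcases this with h | h | h | h | h | h <;> simp [h] <;> ring
  rw [e] at h5
  exact h3.unique h5 ▸ h4

theorem le7 {a : ℕ} (h : a ∈ D) : a ≤ 7 := by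
  simp only [D, Finset.mem_insert, Finset.mem_singleton] at h; omega

theorem G_bd {Z k s} (h : s ∈ G Z k) : s ∈ Icc 0 (42 / 5 / 6 ^ k : ℝ) := by
  obtain ⟨d, h1, -, h3⟩ := h
  refine ⟨h3.nonneg fun j => by positivity, hasSum_le (fun j => ?_) h3 (geo k)⟩
  have : (d (j + k) : ℝ) ≤ 7 := by exact_mod_cast le7 (h1 _)
  gcongr

theorem G_step {Z k s} (h : s ∈ G Z k) :
    ∃ a ∈ D, (k ∈ Z → a ≠ 7) ∧ s - a / 6 ^ k ∈ G Z (k + 1) := by
  obtain ⟨d, h1, h2, h3⟩ := h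
  refine ⟨d k, h1 k, h2 k, d, h1, h2, ?_⟩
  have := (hasSum_nat_add_iff' 1).2 h3
  simpa only [Finset.sum_range_one, zero_add, add_assoc, add_comm 1 k] using this

theorem G_back {k s} {a : ℕ} (ha : a ∈ D) (h : s ∈ G ∅ (k + 1)) : a / 6 ^ k + s ∈ G ∅ k := by
  obtain ⟨d, h1, -, h3⟩ := h
  refine ⟨Function.update d k a, fun j => ?_, by simp, (hasSum_nat_add_iff' 1).1 ?_⟩
  · by_cases h : j = k
    · simp [h, ha]
    · simp [h, h1]
  · simp only [Finset.sum_range_one, zero_add, Function.update_self, add_sub_cancel_left]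
    refine hs_congr h3 fun j => ?_
    rw [Function.update_of_ne (by omega), show j + 1 + k = j + (k + 1) by ring]

theorem null {Z : Set ℕ} (hZ : Z.Infinite) : volume (G Z 0) = 0 := by
  have hfin : ∀ k, volume (G Z k) ≠ ⊤ := fun k =>
    ((measure_mono fun s hs => G_bd hs).trans_lt measure_Icc_lt_top).ne
  let v : ℕ → ℝ := fun k => 6 ^ k * volume.real (G Z k)
  have h0 : ∀ k, 0 ≤ v k := fun k => by positivity
  have h1 : ∀ k, v k ≤ 42 / 5 := fun k => by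
    have : volume.real (G Z k) ≤ volume.real (Icc 0 (42 / 5 / 6 ^ k : ℝ)) :=
      measureReal_mono (fun s hs => G_bd hs) measure_Icc_lt_top.ne
    rw [Real.volume_real_Icc_of_le (by positivity), sub_zero, le_div_iff₀ (by positivity)] at this
    simp only [v]; linarith
  have h2 : ∀ k (T : Finset ℕ), (∀ a ∈ D, (k ∈ Z → a ≠ 7) → a ∈ T) →
      v k ≤ T.card / 6 * v (k + 1) := by
    intro k T hT
    have e : ∀ c : ℝ, volume ((fun s => s - c) ⁻¹' G Z (k + 1)) = volume (G Z (k + 1)) :=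
      fun c => by simpa only [sub_eq_add_neg] using measure_preimage_add_right volume (-c) _
    have a1 : volume.real (G Z k) ≤
        volume.real (⋃ a ∈ T, (fun s : ℝ => s - (a:ℕ) / 6 ^ k) ⁻¹' G Z (k + 1)) := by
      refine measureReal_mono (fun s hs => ?_) ?_
      · obtain ⟨a, a1, a2, a3⟩ := G_step hs
        exact mem_biUnion (hT a a1 a2) a3
      · exact (measure_biUnion_lt_top T.finite_toSet fun a _ => by
          rw [e]; exact (hfin _).lt_top).ne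
    have a2 := a1.trans (measureReal_biUnion_finset_le _ _)
    simp only [Measure.real, e, Finset.sum_const, nsmul_eq_mul] at a2
    simp only [v, Measure.real, pow_succ]
    have : (0:ℝ) < 6 ^ k := by positivity
    nlinarith
  have h3 : Monotone v := monotone_nat_of_le_succ fun k => by
    have := h2 k D fun a ha _ => ha
    rw [show D.card = 6 by decide] at this
    norm_num at this; exact this
  have h4 := tendsto_atTop_ciSup h3 ⟨_, forall_mem_range.2 h1⟩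
  have h5 : ∀ k, v k ≤ ⨆ i, v i := fun k => le_ciSup ⟨_, forall_mem_range.2 h1⟩ k
  have h6 : ⨆ i, v i ≤ 5 / 6 * ⨆ i, v i := by
    refine ciSup_le fun k => ?_
    obtain ⟨j, hj, hkj⟩ := hZ.exists_gt k
    have := h2 j (D.erase 7) fun a ha h => Finset.mem_erase.2 ⟨h hj, ha⟩
    rw [show (D.erase 7).card = 5 by decide] at this
    have a1 := h3 hkj.le
    have a2 := h5 (j + 1)
    push_cast at this
    linarith
  have h7 : v 0 = 0 := le_antisymm (by linarith [h5 0, h0 0]) (h0 0)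
  simpa [v, Measure.real, ENNReal.toReal_eq_zero_iff, hfin 0] using h7

theorem zero_mem (k : ℕ) : (0:ℝ) ∈ G ∅ k :=
  ⟨fun _ => 0, fun _ => by simp [D], by simp, by simp [hasSum_zero]⟩

theorem dec {s : ℝ} (h : s ∈ G ∅ 0) (k : ℕ) : ∃ z : ℕ, s - 6 * z / 6 ^ k ∈ G ∅ k ∧
    ∀ t ∈ G ∅ k, 6 * z / 6 ^ k + t ∈ G ∅ 0 := by
  induction k with
  | zero => exact ⟨0, by simpa using h, by simp⟩
  | succ k ih =>
    obtain ⟨z, h1, h2⟩ := ih
    obtain ⟨a, a1, -, a3⟩ := G_step h1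
    refine ⟨6 * z + a, ?_, fun t ht => ?_⟩
    · convert a3 using 1
      push_cast; field_simp; ring
    · convert h2 _ (G_back a1 ht) using 1
      push_cast; field_simp; ring

theorem closed (k : ℕ) : IsCompact (G ∅ k) := by
  have h1 : Continuous fun e : ℕ → D => ∑' j, ((e (j + k) : ℕ) : ℝ) / 6 ^ (j + k) := by
    refine continuous_tsum (fun i => ?_) (geo k).summable fun i e => ?_
    · exact (continuous_of_discreteTopology
        (f := fun b : D => ((b : ℕ) : ℝ) / 6 ^ (i + k))).comp (continuous_apply (i + k))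
    · have : ((e (i + k) : ℕ) : ℝ) ≤ 7 := by exact_mod_cast le7 (e _).2
      rw [Real.norm_eq_abs, abs_of_nonneg (by positivity)]
      gcongr
  have h2 : G ∅ k = range fun e : ℕ → D => ∑' j, ((e (j + k) : ℕ) : ℝ) / 6 ^ (j + k) := by
    ext s
    constructor
    · rintro ⟨d, d1, -, d2⟩
      exact ⟨fun j => ⟨d j, d1 j⟩, d2.tsum_eq⟩
    · rintro ⟨e, rfl⟩
      refine ⟨fun j => e j, fun j => (e j).2, by simp, Summable.hasSum ?_⟩
      refine Summable.of_nonneg_of_le (fun _ => by positivity) (fun j => ?_) (geo k).summable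
      have : ((e (j + k) : ℕ) : ℝ) ≤ 7 := by exact_mod_cast le7 (e _).2
      gcongr
  rw [h2]; exact isCompact_range h1

theorem ints (k n : ℕ) : ∀ m : ℕ, 2 * 6 ^ n ≤ 5 * m + 2 → m < 6 ^ n →
    ∀ t ∈ G ∅ (k + n), 6 * m / 6 ^ (k + n) + t ∈ G ∅ k := by
  induction n with
  | zero => intro m _ h t ht; simp at h; simpa [h] using ht
  | succ n ih =>
    intro m h1 h2 t ht
    rw [pow_succ] at h1 h2
    obtain ⟨q, a, ha, rfl, q1, q2⟩ : ∃ q a, a ∈ D ∧ m = 6 * q + a ∧ 2 * 6 ^ n ≤ 5 * q + 2 ∧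
        q < 6 ^ n := by
      have h5 : 6 ^ n % 5 = 1 := by rw [Nat.pow_mod]; simp
      by_cases h : m % 6 = 1
      · exact ⟨m / 6 - 1, 7, by decide, by omega, by omega, by omega⟩
      · refine ⟨m / 6, m % 6, ?_, by omega, by omega, by omega⟩
        simp only [D, Finset.mem_insert, Finset.mem_singleton]; omega
    convert ih q q1 q2 _ (G_back (k := k + n) ha ht) using 1
    push_cast; rw [← add_assoc k]; field_simp; ring

theorem intv (k : ℕ) : Icc (3 / 6 ^ k : ℝ) (5 / 6 ^ k) ⊆ G ∅ k := by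
  rintro y ⟨h1, h2⟩
  rw [div_le_iff₀ (by positivity)] at h1
  rw [le_div_iff₀ (by positivity)] at h2
  have hy : 0 ≤ y := by by_contra h; push Not at h; nlinarith [(by positivity : (0:ℝ) < 6 ^ k)]
  rw [← (closed k).isClosed.closure_eq, Metric.mem_closure_iff]
  intro ε hε
  obtain ⟨n, hn⟩ := pow_unbounded_of_one_lt (1 / ε) (show (1:ℝ) < 6 by norm_num)
  have p1 : (0:ℝ) < 6 ^ n := by positivity
  have p2 : (1:ℝ) ≤ 6 ^ k := one_le_pow₀ (by norm_num)
  have f1 := Nat.floor_le (show 0 ≤ y * 6 ^ k * 6 ^ n by positivity)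
  have f2 := Nat.lt_floor_add_one (y * 6 ^ k * 6 ^ n)
  have f3 : 3 * 6 ^ n ≤ ⌊y * 6 ^ k * 6 ^ n⌋₊ := Nat.le_floor (by push_cast; nlinarith)
  have f4 : ⌊y * 6 ^ k * 6 ^ n⌋₊ ≤ 5 * 6 ^ n := Nat.floor_le_of_le (by push_cast; nlinarith)
  have p3 : 0 < 6 ^ n := by positivity
  refine ⟨_, ints k (n + 1) ⌊y * 6 ^ k * 6 ^ n⌋₊ (by rw [pow_succ]; omega)
    (by rw [pow_succ]; omega) 0 (zero_mem _), ?_⟩
  have e : y - (6 * (⌊y * 6 ^ k * 6 ^ n⌋₊ : ℝ) / 6 ^ (k + (n + 1)) + 0) =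
      (y * 6 ^ k * 6 ^ n - ⌊y * 6 ^ k * 6 ^ n⌋₊) / (6 ^ k * 6 ^ n) := by
    field_simp; ring
  rw [Real.dist_eq, e, abs_of_nonneg (div_nonneg (by linarith) (by positivity)),
    div_lt_iff₀ (by positivity)]
  rw [div_lt_iff₀ hε] at hn
  nlinarith

theorem small {ε : ℝ} (hε : 0 < ε) : ∃ k : ℕ, 42 / 5 / 6 ^ k < ε := by
  obtain ⟨n, hn⟩ := pow_unbounded_of_one_lt (42 / 5 / ε) (show (1:ℝ) < 6 by norm_num)
  exact ⟨n, by rw [div_lt_iff₀ (by positivity)]; rw [div_lt_iff₀ hε] at hn; linarith⟩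

theorem reg : G ∅ 0 = closure (interior (G ∅ 0)) := by
  refine Subset.antisymm (fun s hs => ?_) (closure_minimal interior_subset (closed 0).isClosed)
  rw [Metric.mem_closure_iff]
  intro ε hε
  obtain ⟨k, hk⟩ := small hε
  obtain ⟨z, h1, h2⟩ := dec hs k
  have p : (0:ℝ) < (6 ^ k)⁻¹ := by positivity
  have h3 := G_bd h1
  simp only [dv, mem_Icc] at *
  refine ⟨6 * z * (6 ^ k)⁻¹ + 4 * (6 ^ k)⁻¹, interior_maximal (t := Ioo (6 * (z:ℝ) * (6 ^ k)⁻¹
    + 3 * (6 ^ k)⁻¹) (6 * (z:ℝ) * (6 ^ k)⁻¹ + 5 * (6 ^ k)⁻¹)) (fun y hy => ?_) isOpen_Ioo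
    ⟨by linarith, by linarith⟩, ?_⟩
  · have := h2 (y - 6 * z * (6 ^ k)⁻¹) (intv k ⟨by rw [dv]; linarith [hy.1],
      by rw [dv]; linarith [hy.2]⟩)
    simpa using this
  · rw [Real.dist_eq, abs_lt]; constructor <;> linarith [h3.1, h3.2]

theorem noint {c w b : ℝ} (hw : w < c) (hgap : ∀ y ∈ G ∅ 0, w < y → c ≤ y) (hb : c < b)
    (h : Icc c b ⊆ G ∅ 0) : False := by
  obtain ⟨k, hk⟩ := small (lt_min (sub_pos.2 hw) (sub_pos.2 hb))
  rw [lt_min_iff] at hk
  have p : (0:ℝ) < (6 ^ k)⁻¹ := by positivity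
  obtain ⟨z, h1, h2⟩ := dec (h ⟨le_rfl, hb.le⟩) k
  rw [dv] at hk
  obtain ⟨z', h3, h4⟩ := dec (h (show c + 17 / 10 * (6 ^ k)⁻¹ ∈ _ from
    ⟨by linarith, by linarith [hk.2]⟩)) k
  obtain ⟨a, a1, -, a2⟩ := G_step h3
  have b1 := G_bd h1
  have b2 := G_bd h3
  have b3 := G_bd a2
  have c1 := hgap _ (h2 0 (zero_mem k))
  have c2 := hgap _ (h4 0 (zero_mem k))
  rw [pow_succ', ← div_div] at b3
  simp only [dv, mem_Icc] at *
  have d1 := c1 (by linarith [hk.1, b1.2])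
  have d2 := c2 (by linarith [hk.1, b2.2])
  have e1 : (z : ℝ) ≤ z' := by nlinarith [b1.1]
  have e2 : (z' : ℝ) < z + 1 := by nlinarith [b2.1]
  have e3 : z' = z := by
    have a : z ≤ z' := by exact_mod_cast e1
    have b : z' < z + 1 := by exact_mod_cast e2
    omega
  subst e3
  have e4 : (a : ℝ) < 2 := by nlinarith [b1.1, b3.1]
  have e5 : (0:ℝ) < a := by nlinarith [b1.1, b3.2]
  have a : a < 2 := by exact_mod_cast e4
  have b : 0 < ‹ℕ› := by exact_mod_cast e5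
  simp only [D, Finset.mem_insert, Finset.mem_singleton] at a1
  omega

def Pt (c : ℝ) : Prop := c ∈ G ∅ 0 ∧ ∀ w ≠ c, ¬ uIcc c w ⊆ G ∅ 0

theorem left {a b : ℝ} (hab : a < b) (h : Icc a b ⊆ G ∅ 0) (h' : ∀ w < a, ¬ Icc w a ⊆ G ∅ 0)
    {ε : ℝ} (hε : 0 < ε) : ∃ c, Pt c ∧ a - ε ≤ c ∧ c < a := by
  obtain ⟨w, w1, w2⟩ := not_subset.1 (h' (a - ε) (by linarith))
  obtain ⟨c, ⟨c1, c2, c3⟩, c4⟩ := ((closed 0).inter_right (isClosed_Icc (a := w) (b := a))
    ).exists_isLeast ⟨a, h ⟨le_rfl, hab.le⟩, w1.2, le_rfl⟩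
  have hwc : w < c := lt_of_le_of_ne c2 fun h => w2 (h ▸ c1)
  have hgap : ∀ y ∈ G ∅ 0, w < y → c ≤ y := fun y hy hwy => by
    rcases le_total a y with h | h
    · linarith
    · exact c4 ⟨hy, hwy.le, h⟩
  refine ⟨c, ⟨c1, fun z hz hs => ?_⟩, by linarith [w1.1],
    lt_of_le_of_ne c3 fun e => noint hwc hgap (e ▸ hab) (e ▸ h)⟩
  rcases lt_or_gt_of_ne hz with h1 | h1
  · rw [uIcc_of_ge h1.le] at hs
    have m := max_lt h1 hwc
    have := hgap ((max z w + c) / 2) (hs ⟨by linarith [le_max_left z w], by linarith⟩)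
      (by linarith [le_max_right z w])
    linarith
  · rw [uIcc_of_le h1.le] at hs
    exact noint hwc hgap h1 hs

theorem symm {s : ℝ} (h : s ∈ G ∅ 0) : 42 / 5 - s ∈ G ∅ 0 := by
  obtain ⟨d, h1, -, h3⟩ := h
  refine ⟨fun j => 7 - d j, fun j => ?_, by simp, ?_⟩
  · have := h1 j
    simp only [D, Finset.mem_insert, Finset.mem_singleton] at this ⊢; omega
  · have := (geo 0).sub h3
    rw [pow_zero, div_one] at this
    refine hs_congr this fun j => ?_
    dsimp only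
    rw [Nat.cast_sub (le7 (h1 _))]; push_cast; ring

theorem right {a b : ℝ} (hab : a < b) (h : Icc a b ⊆ G ∅ 0) (h' : ∀ w > b, ¬ Icc b w ⊆ G ∅ 0)
    {ε : ℝ} (hε : 0 < ε) : ∃ c, Pt c ∧ c ≤ b + ε ∧ b < c := by
  have key : ∀ u v : ℝ, uIcc (42 / 5 - u) (42 / 5 - v) ⊆ G ∅ 0 → uIcc u v ⊆ G ∅ 0 := by
    intro u v huv y hy
    have := symm (huv (show 42 / 5 - y ∈ _ from by
      rw [mem_uIcc] at *
      rcases hy with h | h
      · right; constructor <;> linarith [h.1, h.2]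
      · left; constructor <;> linarith [h.1, h.2]))
    simpa using this
  obtain ⟨c, ⟨c1, c2⟩, c3, c4⟩ := left (a := 42 / 5 - b) (b := 42 / 5 - a) (by linarith)
    (fun y hy => by simpa using symm (h (show 42 / 5 - y ∈ _ from
      ⟨by linarith [hy.2], by linarith [hy.1]⟩)))
    (fun w hw hs => h' (42 / 5 - w) (by linarith) fun y hy => by
      simpa using symm (hs (show 42 / 5 - y ∈ _ from ⟨by linarith [hy.2], by linarith [hy.1]⟩))) hε
  refine ⟨42 / 5 - c, ⟨symm c1, fun w hw hs => c2 (42 / 5 - w) (fun e => hw (by linarith))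
    (key _ _ (by simpa using hs))⟩, by linarith, by linarith⟩

end Pool.Agent.H.MP_61d686_an
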